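import Pool.Agent.P.MP_740b33_co.FinalW

/-! Graham positivity of the double Schur coefficients of `C(M)`, every matroid. -/

theorem Pool.Agent.Results.MP_740b33_co.Graham.result :
    ∀ (n r m : ℕ) (M : Matroid (Fin n)), M.E = Set.univ → M.eRank = r → m ≤ G94.comps M - 1 →
      (∃ d, G94.IsExpW r m M d) ∧
      ∀ d, G94.IsExpW r m M d → ∀ lam ∈ H40M.box r n,
        ∃ P : MvPolynomial (Fin (n - 1)) ℕ,
          ((G94.expo r M lam).negOnePow : ℤ) • d lam =
            MvPolynomial.eval₂ (Nat.castRingHom _) (G94.adj n) P ∧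
          ∀ a ∈ P.support, ((∑ i, a i : ℕ) : ℤ) = G94.expo r M lam :=
  fun _ _ m M hE hr hm => ⟨G94.exists_expW m M hr, fun _ hd _ hlam =>
    G94.grahamW M hE hr hm hd hlam⟩
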